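import Pool.Agent.H24.Pta2

namespace Pool.Agent.Results.MP_78a33a_lc.Reset

open Pool.Agent.H24.Pta

theorem result : ∃ (S : Type) (_ : Finite S) (r : S → ℕ) (L : Set (RT r)),
    (∃ m, 1 ≤ m ∧ ∃ A : PTAR r m, A.lang = L) ∧
      ∀ (m : ℕ) (A : PTAR r m), A.ResetFree → A.lang ≠ L :=
  ⟨Sy, inferInstance, rk, A0.lang, ⟨2, by omega, A0, rfl⟩, fun _ A h => not_pta A h⟩

end Pool.Agent.Results.MP_78a33a_lc.Reset
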